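import Mathlib
import Pool.Agent.helper85.PG.Spec5

/-!
# Project pg: module COG (collisions)
-/

set_option autoImplicit false

namespace Pool.Agent.helper85.PG

open Module Pointwise

section
variable {p : ℕ} [Fact p.Prime]

/-- the index set -/
def COG_I (P B : Finset (ZMod p)) : Finset (ZMod p × (ZMod p × ZMod p)) := P ×ˢ (B ×ˢ B)

/-- the map counted by `cnt` -/
def COG_f (i : ZMod p × (ZMod p × ZMod p)) : ZMod p × ZMod p := (i.1 + i.2.1, i.1 + i.2.2)

/-- the set of collisions with ratio `u` -/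
def COG_T (P B : Finset (ZMod p)) (u : (ZMod p)ˣ) :
    Finset ((ZMod p × (ZMod p × ZMod p)) × (ZMod p × (ZMod p × ZMod p))) :=
  (COG_I P B ×ˢ COG_I P B).filter fun x => COG_f x.1 = u • COG_f x.2

theorem COG_cnt (P B : Finset (ZMod p)) (z : ZMod p × ZMod p) :
    Pool.Agent.helper46.PY.cnt P B z = ((COG_I P B).filter fun i => COG_f i = z).card := rfl

theorem COG_sum (P B : Finset (ZMod p)) (u : (ZMod p)ˣ) :
    ∑ w : ZMod p × ZMod p, Pool.Agent.helper46.PY.cnt P B (u • w) *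
      Pool.Agent.helper46.PY.cnt P B w = (COG_T P B u).card := by
  rw [Finset.card_eq_sum_card_fiberwise
    (f := fun x : (ZMod p × (ZMod p × ZMod p)) × (ZMod p × (ZMod p × ZMod p)) => COG_f x.2)
    (t := Finset.univ) (fun x _ => Finset.mem_coe.2 (Finset.mem_univ _))]
  refine Finset.sum_congr rfl fun w _ => ?_
  rw [COG_cnt, COG_cnt, ← Finset.card_product]
  congr 1
  ext x
  unfold COG_T
  simp only [Finset.mem_filter, Finset.mem_product]
  constructor
  · rintro ⟨⟨h1, h2⟩, h3, h4⟩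
    exact ⟨⟨⟨h1, h3⟩, by rw [h4]; exact h2⟩, h4⟩
  · rintro ⟨⟨⟨h1, h3⟩, h2⟩, h4⟩
    exact ⟨⟨h1, by rw [h2, h4]⟩, h3, h4⟩

theorem COG_sq (M : Finset (ZMod p)ˣ) (P B : Finset (ZMod p)) :
    ∑ z : ZMod p × ZMod p, (∑ t ∈ M, (Pool.Agent.helper46.PY.cnt P B (t • z) : ℝ)) ^ 2 =
      ∑ m ∈ M, ∑ m' ∈ M, ((COG_T P B (m / m')).card : ℝ) := by
  have h1 : ∀ z : ZMod p × ZMod p,
      (∑ t ∈ M, (Pool.Agent.helper46.PY.cnt P B (t • z) : ℝ)) ^ 2 =
      ∑ m ∈ M, ∑ m' ∈ M, (Pool.Agent.helper46.PY.cnt P B (m • z) : ℝ) *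
        (Pool.Agent.helper46.PY.cnt P B (m' • z) : ℝ) := by
    intro z
    rw [sq, Finset.sum_mul_sum]
  rw [Finset.sum_congr rfl fun z _ => h1 z, Finset.sum_comm]
  refine Finset.sum_congr rfl fun m _ => ?_
  rw [Finset.sum_comm]
  refine Finset.sum_congr rfl fun m' _ => ?_
  rw [← COG_sum]
  push_cast
  refine Fintype.sum_equiv (MulAction.toPerm m') _ _ fun z => ?_
  have h2 : (MulAction.toPerm m') z = m' • z := rfl
  have h3 : (m / m') • (m' • z) = m • z := by
    rw [smul_smul, div_mul_cancel]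
  rw [h2, h3]

/-- the set of triples -/
def COG_K (P B : Finset (ZMod p)) (ρ : ZMod p) : Finset (ZMod p × (ZMod p × ZMod p)) :=
  (B ×ˢ (B ×ˢ B)).filter fun k => k.2.1 - ρ * k.1 ∈ P + dil ρ P

theorem COG_cardK (P B : Finset (ZMod p)) (ρ : ZMod p) :
    (COG_K P B ρ).card ≤ gg P B ρ * (B.card * B.card) := by
  rw [← Finset.card_product]
  refine Finset.card_le_mul_card_image_of_maps_to (f := fun k : ZMod p × (ZMod p × ZMod p) =>
    (k.1, k.2.2)) ?_ _ ?_
  · intro k hk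
    unfold COG_K at hk
    rw [Finset.mem_filter, Finset.mem_product, Finset.mem_product] at hk
    exact Finset.mem_product.2 ⟨hk.1.1, hk.1.2.2⟩
  · intro c _
    have h1 : (B.filter fun b => b - ρ * c.1 ∈ P + dil ρ P).card ≤ gg P B ρ := by
      unfold gg
      exact Finset.le_sup (f := fun t : ZMod p => (B.filter fun b => b - t ∈ P + dil ρ P).card)
        (Finset.mem_univ (ρ * c.1))
    refine le_trans ?_ h1
    refine Finset.card_le_card_of_injOn (fun k => k.2.1) ?_ ?_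
    · intro k hk
      unfold COG_K at hk
      rw [Finset.mem_coe, Finset.mem_filter, Finset.mem_filter, Finset.mem_product,
        Finset.mem_product] at hk
      rw [Finset.mem_coe, Finset.mem_filter]
      obtain ⟨⟨⟨_, h3, _⟩, h5⟩, h6⟩ := hk
      have h7 : k.1 = c.1 := congrArg Prod.fst h6
      rw [h7] at h5
      exact ⟨h3, h5⟩
    · intro k hk k' hk' hkk
      rw [Finset.mem_coe, Finset.mem_filter] at hk hk'
      have h2 := hk.2.trans hk'.2.symm
      have h3 : k.1 = k'.1 := (Prod.mk.inj h2).1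
      have h4 : k.2.2 = k'.2.2 := (Prod.mk.inj h2).2
      exact Prod.ext h3 (Prod.ext hkk h4)

theorem COG_rel {u : (ZMod p)ˣ} {x : (ZMod p × (ZMod p × ZMod p)) × (ZMod p × (ZMod p × ZMod p))}
    (h : COG_f x.1 = u • COG_f x.2) :
    x.1.1 + x.1.2.1 = (u : ZMod p) * (x.2.1 + x.2.2.1) ∧
      x.1.1 + x.1.2.2 = (u : ZMod p) * (x.2.1 + x.2.2.2) := by
  have h1 := congrArg Prod.fst h
  have h2 := congrArg Prod.snd h
  exact ⟨h1, h2⟩

theorem COG_cardT (P B S : Finset (ZMod p)) (hneg : ∀ x ∈ P, -x ∈ P)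
    (hS : ∀ x ∈ P, ∀ x' ∈ P, x - x' ∈ S) (u : (ZMod p)ˣ) :
    (COG_T P B u).card ≤ rr S (u : ZMod p) * (COG_K P B (u : ZMod p)).card := by
  refine Finset.card_le_mul_card_image_of_maps_to
    (f := fun x : (ZMod p × (ZMod p × ZMod p)) × (ZMod p × (ZMod p × ZMod p)) =>
      (x.2.2.1, (x.1.2.1, x.1.2.2))) ?_ _ ?_
  · intro x hx
    unfold COG_T COG_I at hx
    rw [Finset.mem_filter, Finset.mem_product, Finset.mem_product, Finset.mem_product,
      Finset.mem_product, Finset.mem_product] at hx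
    obtain ⟨⟨⟨h1, h2, h3⟩, h4, h5, h6⟩, h7⟩ := hx
    obtain ⟨h8, _⟩ := COG_rel h7
    unfold COG_K
    rw [Finset.mem_filter, Finset.mem_product, Finset.mem_product]
    refine ⟨⟨h5, h2, h3⟩, ?_⟩
    change x.1.2.1 - (u : ZMod p) * x.2.2.1 ∈ P + dil (u : ZMod p) P
    have h9 : x.1.2.1 - (u : ZMod p) * x.2.2.1 = -x.1.1 + (u : ZMod p) * x.2.1 := by
      linear_combination h8
    rw [h9]
    refine Finset.add_mem_add (hneg _ h1) ?_
    unfold dil
    exact Finset.mem_image.2 ⟨x.2.1, h4, rfl⟩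
  · intro c _
    rcases Finset.eq_empty_or_nonempty ((COG_T P B u).filter fun x =>
      (x.2.2.1, (x.1.2.1, x.1.2.2)) = c) with hE | ⟨x₀, hx₀⟩
    · rw [hE, Finset.card_empty]
      exact Nat.zero_le _
    · unfold rr
      have hkey : ∀ x ∈ (COG_T P B u).filter fun x => (x.2.2.1, (x.1.2.1, x.1.2.2)) = c,
          x.1.1 ∈ P ∧ x.2.1 ∈ P ∧ x.1.1 + c.2.1 = (u : ZMod p) * (x.2.1 + c.1) ∧
          x.1.1 + c.2.2 = (u : ZMod p) * (x.2.1 + x.2.2.2) ∧ x.2.2.1 = c.1 ∧ x.1.2.1 = c.2.1 ∧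
          x.1.2.2 = c.2.2 := by
        intro x hx
        unfold COG_T COG_I at hx
        rw [Finset.mem_filter, Finset.mem_filter, Finset.mem_product, Finset.mem_product,
          Finset.mem_product, Finset.mem_product, Finset.mem_product] at hx
        obtain ⟨⟨⟨⟨h1, _⟩, h4, _⟩, h7⟩, h8⟩ := hx
        obtain ⟨h9, h10⟩ := COG_rel h7
        have e1 : x.2.2.1 = c.1 := congrArg Prod.fst h8
        have e2 : x.1.2.1 = c.2.1 := congrArg (fun y => y.2.1) h8
        have e3 : x.1.2.2 = c.2.2 := congrArg (fun y => y.2.2) h8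
        rw [e1, e2] at h9
        rw [e3] at h10
        exact ⟨h1, h4, h9, h10, e1, e2, e3⟩
      obtain ⟨a1, a2, a3, a4, a5, a6, a7⟩ := hkey x₀ hx₀
      refine Finset.card_le_card_of_injOn (fun x => x.2.1 - x₀.2.1) ?_ ?_
      · intro x hx
        obtain ⟨b1, b2, b3, b4, b5, b6, b7⟩ := hkey x (Finset.mem_coe.1 hx)
        rw [Finset.mem_coe, Finset.mem_filter]
        refine ⟨hS _ b2 _ a2, ?_⟩
        have h1 : (u : ZMod p) * (x.2.1 - x₀.2.1) = x.1.1 - x₀.1.1 := by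
          linear_combination a3 - b3
        change (u : ZMod p) * (x.2.1 - x₀.2.1) ∈ S
        rw [h1]
        exact hS _ b1 _ a1
      · intro x hx y hy hxy
        obtain ⟨b1, b2, b3, b4, b5, b6, b7⟩ := hkey x (Finset.mem_coe.1 hx)
        obtain ⟨c1, c2, c3, c4, c5, c6, c7⟩ := hkey y (Finset.mem_coe.1 hy)
        have hxy' : x.2.1 - x₀.2.1 = y.2.1 - x₀.2.1 := hxy
        have e1 : x.2.1 = y.2.1 := sub_left_injective hxy'
        have e2 : x.1.1 = y.1.1 := by
          rw [e1] at b3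
          exact add_right_cancel (b3.trans c3.symm)
        have e3 : x.2.2.2 = y.2.2.2 := by
          rw [e1, e2] at b4
          have h1 : (u : ZMod p) * (y.2.1 + x.2.2.2) = (u : ZMod p) * (y.2.1 + y.2.2.2) :=
            b4.symm.trans c4
          have h2 := mul_left_cancel₀ (Units.ne_zero u) h1
          exact add_left_cancel h2
        refine Prod.ext (Prod.ext e2 (Prod.ext (b6.trans c6.symm) (b7.trans c7.symm)))
          (Prod.ext e1 (Prod.ext (b5.trans c5.symm) e3))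

end

theorem COG : COG_stmt := by
  intro p _ M P B S hneg hS
  rw [COG_sq]
  refine Finset.sum_le_sum fun m _ => Finset.sum_le_sum fun m' _ => ?_
  have h1 := COG_cardT P B S hneg hS (m / m')
  have h2 := COG_cardK P B ((m / m' : (ZMod p)ˣ) : ZMod p)
  have h3 : ((m / m' : (ZMod p)ˣ) : ZMod p) = (m : ZMod p) / (m' : ZMod p) :=
    Units.val_div_eq_div_val m m'
  rw [h3] at h1 h2
  have h4 : (COG_T P B (m / m')).card ≤ rr S ((m : ZMod p) / (m' : ZMod p)) *
      (gg P B ((m : ZMod p) / (m' : ZMod p)) * (B.card * B.card)) :=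
    h1.trans (Nat.mul_le_mul_left _ h2)
  have h5 : ((COG_T P B (m / m')).card : ℝ) ≤ (rr S ((m : ZMod p) / (m' : ZMod p)) : ℝ) *
      ((gg P B ((m : ZMod p) / (m' : ZMod p)) : ℝ) * ((B.card : ℝ) * (B.card : ℝ))) := by
    exact_mod_cast h4
  refine h5.trans (le_of_eq ?_)
  ring

end Pool.Agent.helper85.PG
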